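import Mathlib
import Pool.Agent.D0H41.SF.Stm

/-!
# Project SG: `S_n`-fields of degree `n` with given signature and given completely split primes

Variant of project SF (`Pool.Agent.D0H41.SF`, `Pool.Agent.D0H87.SF`, `Pool.Agent.D0H42.SF`).  The final
theorem: for `n ≥ n₀`, `r₁ ≤ n`, `n - r₁` even, `S` a finite set of primes: for all large `X` there are at
least `X ^ (1/2 + 4/(3n) - 16 (log n)^2/n^2)` fields of degree `n` with group `S_n`, `|disc| ≤ X`, exactly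
`r₁` real embeddings, in which all primes of `S` split completely.

Modules (proofs in the docstrings): FAMG, VERG, EXPG, SN2, LOC, OPEN, REAL, EMB, CRT.  Assembly: helper41.
-/

set_option autoImplicit false

open Polynomial

namespace Pool.Agent.D0H41.SG

open Pool.Agent.D0H41.SF

open IntermediateField (adjoin)

/-- a congruence class of polynomials -/
def Cls {n : ℕ} (q : ℕ) (a0 a : Fin (n - 1) → ℤ) : Prop := ∀ i, (q : ℤ) ∣ a i - a0 i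

/-- **FAMG** (copy of `Pool.Agent.D0H87.SF.FAM.fiber` and `t_FAM`; the polynomials are close to a given
one).  `fiber`: the same proof gives `|a i - a0 i| ≤ q (C₁ + 1) V ^ (2 (n - i))` without any hypothesis on the
size of `a0` (drop `M`).  Then, for given `V` and `g`, use it with `a0 + q • ((g - a0) / q)` instead of `a0`,
which is in the same class modulo `q` and differs from `g` by at most `q`; `C = q (C₁ + 2)`.  `mult` is used
with the constant `K + C`, so `V₀` depends on `K`, but `C` does not. -/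
def S_FAMG : Prop := ∀ n k q : ℕ, 2 ≤ k → 2 * k ≤ n → 1 ≤ q → ∀ a0 : Fin (n - 1) → ℤ,
  (∀ a : Fin (n - 1) → ℤ, Cls q a0 a → Irreducible (polQ n a)) →
  ∃ C : ℝ, 0 < C ∧ ∀ K : ℝ, 0 < K → ∃ V₀ : ℕ, ∀ V ≥ V₀, ∀ g : Fin (n - 1) → ℤ,
  (∀ i, |((g i : ℤ) : ℝ)| ≤ K * (V : ℝ) ^ (2 * (n - (i : ℕ)))) → ∃ A : Finset (Fin (n - 1) → ℤ),
    V ^ (n ^ 2 + n - 4 - k * (n + 1 - k)) ≤ A.card ∧ ∀ a ∈ A, Cls q a0 a ∧
      (∀ i, |((a i - g i : ℤ) : ℝ)| ≤ C * (V : ℝ) ^ (2 * (n - (i : ℕ)))) ∧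
      ∃ r m : ℕ, V ^ (k * (n + 1 - k)) < r ∧ (r : ℤ) ^ 2 ∣ (pol n a).eval (m : ℤ) ∧
        (r : ℤ) ∣ (derivative (pol n a)).eval (m : ℤ)

/-- There are many polynomials whose fields have group `S_n` and the property `Ω`. -/
def Rich (n k : ℕ) (Ω : IntermediateField ℚ Qb → Prop) : Prop :=
  ∃ C : ℝ, 0 < C ∧ ∃ V₀ : ℕ, ∀ V ≥ V₀, ∃ A : Finset (Fin (n - 1) → ℤ),
    V ^ (n ^ 2 + n - 4 - k * (n + 1 - k)) ≤ A.card ∧ ∀ a ∈ A,
      (∀ i, |((a i : ℤ) : ℝ)| ≤ C * (V : ℝ) ^ (2 * (n - (i : ℕ)))) ∧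
      (∃ r m : ℕ, V ^ (k * (n + 1 - k)) < r ∧ (r : ℤ) ^ 2 ∣ (pol n a).eval (m : ℤ) ∧
        (r : ℤ) ∣ (derivative (pol n a)).eval (m : ℤ)) ∧
      Irreducible (polQ n a) ∧
      ∀ θ : Qb, aeval θ (pol n a) = 0 → Sym (adjoin ℚ {θ}) ∧ Ω (adjoin ℚ {θ})

/-- the fields with the property `Ω` -/
def SymO (n : ℕ) (Ω : IntermediateField ℚ Qb → Prop) (X : ℝ) : Set (IntermediateField ℚ Qb) :=
  {L | Module.finrank ℚ L = n ∧ DB L X ∧ Sym L ∧ Ω L}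

/-- **VERG** (copy of `Pool.Agent.D0H41.SF.t_VER`, file `D0H41/SF/VerB.lean`; `hSN` and `hFAM` are replaced by
`Rich n k Ω`, and `SymF n` by `SymO n Ω`). -/
def S_VERG : Prop := ∀ (n k J c : ℕ) (E C₀ : ℝ) (Ω : IntermediateField ℚ Qb → Prop),
  2 ≤ k → 2 * k ≤ n → 1 ≤ J → n ≤ c * J + 1 → 0 ≤ E → Rich n k Ω →
  (∀ X : ℝ, 1 ≤ X → (Flds n X).Finite ∧ ((Flds n X).ncard : ℝ) ≤ C₀ * X ^ E) →
  4 * n * c * E + 2 * n + 4 + k * (n + 1 - k : ℕ) < (n : ℝ) ^ 2 + n →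
  n * (n + 1) / 2 + 2 * J + 4 + k * (n + 1 - k) < n ^ 2 + n →
  ∃ C : ℝ, 0 < C ∧ ∃ V₀ : ℕ, ∀ V ≥ V₀,
    (V : ℝ) ^ (n ^ 2 + n - 5 - J - k * (n + 1 - k)) ≤
      ((SymO n Ω (C * (V : ℝ) ^ (2 * n * (n - 1) - 2 * k * (n + 1 - k)))).ncard : ℝ)

/-- **EXPG** (from VERG; copy of `Pool.Agent.D0H41.SF.t_EXP`, file `D0H41/SF/Exp.lean`). -/
def S_EXPG : Prop := ∃ n₀ : ℕ, ∀ n : ℕ, n₀ ≤ n → ∀ Ω : IntermediateField ℚ Qb → Prop,
  Rich n (n / 2) Ω → ∃ X₀ : ℝ, ∀ X : ℝ, X₀ ≤ X → (SymO n Ω X).Finite ∧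
    X ^ ((1 : ℝ) / 2 + 4 / (3 * n) - 16 * (Real.log n) ^ 2 / (n : ℝ) ^ 2) ≤ ((SymO n Ω X).ncard : ℝ)

/-- **SN2** (copy of `Pool.Agent.D0H42.SF.t_SN` with `Nat.exists_infinite_primes (max n M + 1)`): the class
modulo `q` which forces `S_n` can be taken with all prime factors of `q` larger than `M`. -/
def S_SN2 : Prop := ∀ n M : ℕ, 4 ≤ n → ∃ q : ℕ, 1 ≤ q ∧ (∀ p : ℕ, p.Prime → p ∣ q → M < p) ∧
  ∃ a0 : Fin (n - 1) → ℤ, ∀ a : Fin (n - 1) → ℤ, Cls q a0 a → Irreducible (polQ n a) ∧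
    ∀ θ : Qb, aeval θ (pol n a) = 0 → Sym (adjoin ℚ {θ})

/-- **LOC** (Hensel's lemma `hensels_lemma` over `ℤ_[p]`).  Let
`F = (X + n (n - 1) / 2) ∏_(1 ≤ j < n) (X - j)`: the roots are different integers with sum `0`, so
`F = pol n b`.  Let `v` be larger than the `p`-adic valuations of `F'(x)` for all roots `x` (so also of the
differences of the roots), `t = 2 v + 1`.  If `a ≡ b` modulo `p ^ t` then `pol n a` has a root in `ℤ_[p]`
congruent to `x` modulo `p ^ (t - v)`, for each root `x` of `F`, and these `n` roots are different. -/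
def S_LOC : Prop := ∀ n p : ℕ, 3 ≤ n → ∀ [Fact p.Prime], ∃ (t : ℕ) (b : Fin (n - 1) → ℤ),
  ∀ a : Fin (n - 1) → ℤ, Cls (p ^ t) b a → {x : ℚ_[p] | aeval x (pol n a) = 0}.ncard = n

/-- **OPEN**: the number of the real roots does not change if the coefficients change little (only simple
real roots).  Around each real root `x₀` there is a closed interval `I` of positive length on which `F' ≠ 0`;
take them disjoint.  On the `I`s `|F'| ≥ δ`, `F` has different signs at the ends of each `I`, and outside of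
their interiors `|F(x)| ≥ δ (1 + |x|) ^ N`, `N = natDegree F` (for `|x|` large because `F` is monic, and on
compact sets by continuity).  For `ε` small `G` has the same properties (with `δ / 2`), so one root in each
`I` (intermediate value theorem; `G'` has no zero in `I`, Rolle) and no other root. -/
def S_OPEN : Prop := ∀ F : ℝ[X], F.Monic → (∀ x, F.IsRoot x → (derivative F).eval x ≠ 0) →
  ∃ ε : ℝ, 0 < ε ∧ ∀ G : ℝ[X], G.Monic → G.natDegree = F.natDegree →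
    (∀ i, |G.coeff i - F.coeff i| ≤ ε) → {x | G.IsRoot x}.ncard = {x | F.IsRoot x}.ncard

/-- **REAL** (from OPEN).  Let `F = (∏_(j < r₁) (x - (j - (r₁ - 1) / 2))) * (x ^ 2 + 1) ^ ((n - r₁) / 2)`, a
real monic polynomial without term of degree `n - 1` with exactly `r₁` real roots, all simple.  Let `ε` be as
in OPEN, `T = K₀ V ^ 2` with an integer `K₀ ≥ 1`, `(C + 1) / K₀ ^ 2 ≤ ε`, `g i = ⌊F_i T ^ (n - i)⌋` and
`G(x) = T ^ (-n) (pol n a)(T x)`, so `G_i = a_i T ^ (i - n)` and `|G_i - F_i| ≤ (C + 1) / K₀ ^ (n - i)`. -/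
def S_REAL : Prop := ∀ n r₁ : ℕ, 4 ≤ n → r₁ ≤ n → Even (n - r₁) → ∀ C : ℝ, 0 < C →
  ∃ K : ℝ, 0 < K ∧ ∀ V : ℕ, 1 ≤ V → ∃ g : Fin (n - 1) → ℤ,
    (∀ i, |((g i : ℤ) : ℝ)| ≤ K * (V : ℝ) ^ (2 * (n - (i : ℕ)))) ∧
    ∀ a : Fin (n - 1) → ℤ, (∀ i, |((a i - g i : ℤ) : ℝ)| ≤ C * (V : ℝ) ^ (2 * (n - (i : ℕ)))) →
      {x : ℝ | aeval x (pol n a) = 0}.ncard = r₁

/-- **EMB** (`IntermediateField.algHomAdjoinIntegralEquiv`, `minpoly ℚ θ = polQ n a`, see `minpoly_root` in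
`D0H41/SF/Basic.lean`): embeddings of `ℚ(θ)` in a field `F` are roots of `pol n a` in `F`. -/
def S_EMB : Prop := ∀ (n : ℕ) (a : Fin (n - 1) → ℤ) (θ : Qb) (F : Type) [Field F] [CharZero F], 2 ≤ n →
  Irreducible (polQ n a) → aeval θ (pol n a) = 0 →
  Nat.card (adjoin ℚ {θ} →+* F) = {x : F | aeval x (pol n a) = 0}.ncard

/-- **CRT**: one congruence class for all the conditions (induction on `S`, Chinese remainder theorem for two
coprime moduli). -/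
def S_CRT : Prop := ∀ (n : ℕ) (S : Finset ℕ) (t : ℕ → ℕ) (b : ℕ → Fin (n - 1) → ℤ) (q : ℕ)
  (a0 : Fin (n - 1) → ℤ), (∀ p ∈ S, p.Prime) → 1 ≤ q → (∀ p ∈ S, ¬ p ∣ q) →
  ∃ (Q : ℕ) (c : Fin (n - 1) → ℤ), 1 ≤ Q ∧ ∀ a : Fin (n - 1) → ℤ, Cls Q c a →
    Cls q a0 a ∧ ∀ p ∈ S, Cls (p ^ t p) (b p) a

/-- The final theorem. -/
def S_FIN : Prop := ∃ n₀ : ℕ, ∀ n : ℕ, n₀ ≤ n → ∀ r₁ : ℕ, r₁ ≤ n → Even (n - r₁) →
  ∀ S : Finset ℕ, (∀ p ∈ S, p.Prime) → ∃ X₀ : ℝ, ∀ X : ℝ, X₀ ≤ X →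
    (SymO n (fun L => Nat.card (L →+* ℝ) = r₁ ∧
      ∀ p ∈ S, ∀ h : Fact p.Prime, Nat.card (L →+* @Padic p h) = n) X).Finite ∧
    X ^ ((1 : ℝ) / 2 + 4 / (3 * n) - 16 * (Real.log n) ^ 2 / (n : ℝ) ^ 2) ≤
      ((SymO n (fun L => Nat.card (L →+* ℝ) = r₁ ∧
        ∀ p ∈ S, ∀ h : Fact p.Prime, Nat.card (L →+* @Padic p h) = n) X).ncard : ℝ)

end Pool.Agent.D0H41.SG
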