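import Pool.Agent.D0H41.SG.Stm

/-!
Project SG: assembly.
-/

set_option autoImplicit false

open Polynomial

namespace Pool.Agent.D0H41.SG

open Pool.Agent.D0H41.SF
open IntermediateField (adjoin)

/-- the local conditions -/
def Om (n r₁ : ℕ) (S : Finset ℕ) (L : IntermediateField ℚ Qb) : Prop :=
  Nat.card (L →+* ℝ) = r₁ ∧ ∀ p ∈ S, ∀ h : Fact p.Prime, Nat.card (L →+* @Padic p h) = n

theorem rich (hFAMG : S_FAMG) (hSN2 : S_SN2) (hLOC : S_LOC) (hREAL : S_REAL) (hEMB : S_EMB)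
    (hCRT : S_CRT) (n k r₁ : ℕ) (S : Finset ℕ) (h2k : 2 ≤ k) (hkn : 2 * k ≤ n) (hr : r₁ ≤ n)
    (he : Even (n - r₁)) (hS : ∀ p ∈ S, p.Prime) : Rich n k (Om n r₁ S) := by
  classical
  have hn4 : 4 ≤ n := by omega
  obtain ⟨q, hq1, hqp, a0, hsn⟩ := hSN2 n (S.sup id) hn4
  have hloc : ∀ p : ℕ, ∃ (t : ℕ) (b : Fin (n - 1) → ℤ), ∀ h : Fact p.Prime,
      ∀ a : Fin (n - 1) → ℤ, Cls (p ^ t) b a →
        {x : @Padic p h | aeval x (pol n a) = 0}.ncard = n := by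
    intro p
    by_cases hp : p.Prime
    · haveI : Fact p.Prime := ⟨hp⟩
      obtain ⟨t, b, h⟩ := hLOC n p (by omega)
      exact ⟨t, b, fun _ a ha => h a ha⟩
    · exact ⟨0, 0, fun h => absurd h.out hp⟩
  choose t b htb using hloc
  obtain ⟨Q, c, hQ1, hQ⟩ := hCRT n S t b q a0 hS hq1 (fun p hp hpq => by
    have h1 := hqp p (hS p hp) hpq
    have h2 : p ≤ S.sup id := Finset.le_sup (f := id) hp
    omega)
  obtain ⟨C, hC, hfam⟩ := hFAMG n k Q h2k hkn hQ1 c (fun a ha => (hsn a (hQ a ha).1).1)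
  obtain ⟨K, hK, hreal⟩ := hREAL n r₁ hn4 hr he C hC
  obtain ⟨V₀, hV⟩ := hfam K hK
  refine ⟨K + C, by positivity, max V₀ 1, fun V hVV => ?_⟩
  obtain ⟨g, hg1, hg2⟩ := hreal V (le_trans (le_max_right _ _) hVV)
  obtain ⟨A, hA1, hA2⟩ := hV V (le_trans (le_max_left _ _) hVV) g hg1
  refine ⟨A, hA1, fun a ha => ?_⟩
  obtain ⟨ha1, ha2, ha3⟩ := hA2 a ha
  have hirr : Irreducible (polQ n a) := (hsn a (hQ a ha1).1).1
  refine ⟨fun i => ?_, ha3, hirr, fun θ hθ => ⟨(hsn a (hQ a ha1).1).2 θ hθ, ?_, ?_⟩⟩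
  · have h1 : ((a i : ℤ) : ℝ) = ((a i - g i : ℤ) : ℝ) + ((g i : ℤ) : ℝ) := by
      push_cast
      ring
    rw [h1]
    refine (abs_add_le _ _).trans ?_
    have h2 := ha2 i
    have h3 := hg1 i
    linarith
  · rw [hEMB n a θ ℝ (by omega) hirr hθ]
    exact hg2 a ha2
  · intro p hp h
    rw [hEMB n a θ (@Padic p h) (by omega) hirr hθ]
    exact htb p h a ((hQ a ha1).2 p hp)

theorem final (hEXPG : S_EXPG) (hFAMG : S_FAMG) (hSN2 : S_SN2) (hLOC : S_LOC) (hREAL : S_REAL)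
    (hEMB : S_EMB) (hCRT : S_CRT) : S_FIN := by
  obtain ⟨n₀, hn₀⟩ := hEXPG
  refine ⟨max n₀ 4, fun n hn r₁ hr he S hS => ?_⟩
  have h1 : n₀ ≤ n := le_trans (le_max_left _ _) hn
  have h2 : 4 ≤ n := le_trans (le_max_right _ _) hn
  exact hn₀ n h1 _ (rich hFAMG hSN2 hLOC hREAL hEMB hCRT n (n / 2) r₁ S (by omega) (by omega) hr he hS)

end Pool.Agent.D0H41.SG
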