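import Pool.Agent.D0H41.SF.Exp
import Pool.Agent.D0H41.SG.Stm

/-!
Project SG, module EXPG: the proof of `t_EXP` for the fields with a property `Ω`.
-/

set_option autoImplicit false

open Polynomial

namespace Pool.Agent.D0H41.SG

open Pool.Agent.D0H41.SF

/-- EXPG -/
theorem t_EXPG (hV : S_VERG) : S_EXPG := by
  obtain ⟨e, he1, he2⟩ := Pool.Agent.Results.MP_bf81c2_nt.LinnikExponent.result
  have hlog2 : 1 / (8 * (Real.log 2) ^ 2) < (1 : ℝ) := by
    have h1 := Real.log_two_gt_d9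
    rw [div_lt_one (by positivity)]
    nlinarith
  obtain ⟨n1, hn1⟩ := Filter.eventually_atTop.1 (he1 1 hlog2)
  have hlo : ∀ᶠ n : ℕ in Filter.atTop, (Real.log n) ^ 2 ≤ 1 / 200 * (n : ℝ) := by
    have h1 := (Real.isLittleO_pow_log_id_atTop (n := 2)).bound (show (0 : ℝ) < 1 / 200 by norm_num)
    have h2 := tendsto_natCast_atTop_atTop (R := ℝ).eventually h1
    filter_upwards [h2] with n hn
    rw [Real.norm_of_nonneg (by positivity)] at hn
    simpa using hn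
  obtain ⟨n2, hn2⟩ := Filter.eventually_atTop.1 hlo
  refine ⟨max (max n1 n2) 1000, ?_⟩
  intro n hn Ω hR
  have hna : n1 ≤ n := le_trans (le_trans (le_max_left _ _) (le_max_left _ _)) hn
  have hnb : n2 ≤ n := le_trans (le_trans (le_max_right _ _) (le_max_left _ _)) hn
  have hnc : 1000 ≤ n := le_trans (le_max_right _ _) hn
  have hnR : (1000 : ℝ) ≤ n := by exact_mod_cast hnc
  set E : ℝ := (Real.log n) ^ 2 with hE
  have hEe : e n ≤ E := by
    have := hn1 n hna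
    simpa using this
  have hEn : E ≤ 1 / 200 * (n : ℝ) := hn2 n hnb
  have hlog1 : 1 ≤ Real.log n := by
    rw [Real.le_log_iff_exp_le (by linarith)]
    have := Real.exp_one_lt_d9
    linarith
  have hE1 : 1 ≤ E := one_le_pow₀ hlog1
  obtain ⟨C0, hC0⟩ := he2 n (by omega) 1
  have hC0' := hC0 ℚ (by simp)
  have hF : ∀ X : ℝ, 1 ≤ X → (Flds n X).Finite ∧ ((Flds n X).ncard : ℝ) ≤ |C0| * X ^ E := by
    intro X hX
    obtain ⟨h1, h2⟩ := hC0' X hX
    refine ⟨h1, ?_⟩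
    calc ((Flds n X).ncard : ℝ) ≤ C0 * X ^ e n := h2
      _ ≤ |C0| * X ^ e n := by
        gcongr
        exact le_abs_self C0
      _ ≤ |C0| * X ^ E := by
        gcongr
  set k : ℕ := n / 2 with hk
  set J : ℕ := ⌈16 * E⌉₊ + 1 with hJ
  have hJ1 : (J : ℝ) ≤ 16 * E + 2 := by
    rw [hJ]
    push_cast
    have := Nat.ceil_lt_add_one (show 0 ≤ 16 * E by linarith)
    linarith
  have hJ2 : 16 * E ≤ J := by
    rw [hJ]
    push_cast
    have := Nat.le_ceil (16 * E)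
    linarith
  have hJn : 2 * J ≤ n := by
    have : (2 * J : ℝ) ≤ n := by linarith
    exact_mod_cast this
  set c : ℕ := n / J + 1 with hc
  have hJpos : 0 < J := by omega
  have hcJ : n ≤ c * J + 1 := by
    have := Nat.div_add_mod n J
    have h2 := Nat.mod_lt n hJpos
    rw [hc]
    nlinarith
  have hcR : (c : ℝ) ≤ n / J + 1 := by
    rw [hc]
    push_cast
    have := Nat.cast_div_le (α := ℝ) (m := n) (n := J)
    linarith
  obtain ⟨j, hj⟩ : ∃ j, n = 2 * k + j ∧ j ≤ 1 := ⟨n - 2 * k, by omega, by omega⟩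
  have hk1 : n + 1 - k = k + j + 1 := by omega
  set g : ℕ := k * (n + 1 - k) with hg
  have hgR : (g : ℝ) = (k : ℝ) * ((k : ℝ) + j + 1) := by
    rw [hg, hk1]
    push_cast
    ring
  have hnkj : (n : ℝ) = 2 * k + j := by exact_mod_cast hj.1
  have hj1 : (j : ℝ) ≤ 1 := by exact_mod_cast hj.2
  have hj0 : (0 : ℝ) ≤ j := Nat.cast_nonneg _
  have hg1 : (n : ℝ) ^ 2 + 2 * n - 3 ≤ 4 * g := by
    rw [hgR, hnkj]
    nlinarith
  have hg2 : 4 * (g : ℝ) ≤ ((n : ℝ) + 1) ^ 2 := by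
    rw [hgR, hnkj]
    nlinarith
  have hg2N : 4 * g ≤ (n + 1) ^ 2 := by exact_mod_cast hg2
  obtain ⟨C, hC, V₀, hVV⟩ := hV n k J c E |C0| Ω (by omega) (by omega) (by omega) hcJ (by linarith) hR hF
    (by
      have h1 : (k : ℝ) * ((n + 1 - k : ℕ) : ℝ) = g := by rw [hg]; push_cast; ring
      rw [h1]
      exact ar4 n c J g E hnR hcR hJ2 (by exact_mod_cast hJpos) (by linarith) hEn hg2)
    (ar2 n g J hnc hg2N hJn)
  set D : ℕ := 2 * n * (n - 1) - 2 * k * (n + 1 - k) with hD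
  set M : ℕ := n ^ 2 + n - 5 - J - k * (n + 1 - k) with hM
  have hgn : g ≤ n * (n - 1) := by
    exact ar1 n g (n - 1) (by omega) hnc hg2N
  have hDN : D = 2 * (n * (n - 1) - g) := by
    have h1 : 2 * k * (n + 1 - k) = 2 * g := by rw [hg]; ring
    have h2 : 2 * n * (n - 1) = 2 * (n * (n - 1)) := by ring
    rw [hD, h1, h2]
    omega
  have hDR : (D : ℝ) = 2 * ((n : ℝ) * (n - 1) - g) := by
    rw [hDN]
    push_cast [Nat.cast_sub hgn, Nat.cast_sub (show 1 ≤ n by omega)]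
    ring
  have hMN : 5 + J + g ≤ n ^ 2 + n := ar3 n g J hnc hg2N hJn
  have hMR : (M : ℝ) = (n : ℝ) ^ 2 + n - 5 - J - g := by
    rw [hM, ← hg, Nat.sub_sub, Nat.sub_sub, Nat.cast_sub (by omega)]
    push_cast
    ring
  have hD0 : (0 : ℝ) < D := by
    rw [hDR]
    exact ar6 n g hnR hg2
  have hexp := expo n g J (by linarith) hg1 hJ1 (by
    have : (2 * J : ℝ) ≤ n := by exact_mod_cast hJn
    have h0 : (0 : ℝ) ≤ J := Nat.cast_nonneg _
    linarith) hlog1 hg2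
  have hexp2 : ((n : ℝ) ^ 2 + n - 6 - J - g) / (2 * ((n : ℝ) * (n - 1) - g)) =
      ((M : ℝ) - 1) / D := by
    rw [hMR, hDR]
    congr 1
    ring
  rw [hexp2] at hexp
  have hM1 : 1 ≤ M := by
    have : (1 : ℝ) ≤ M := ar5 n g J M hnR hg2 (by exact_mod_cast hJn) hMR
    exact_mod_cast this
  -- the choice of V
  set K : ℝ := max 1 ((2 * (max 1 C)) ^ (M * D + 1)) with hK
  refine ⟨max (K ^ D) (C * ((V₀ : ℝ) + 2) ^ D), ?_⟩
  intro X hX
  have hX1 : K ^ D ≤ X := le_trans (le_max_left _ _) hX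
  have hX2 : C * ((V₀ : ℝ) + 2) ^ D ≤ X := le_trans (le_max_right _ _) hX
  have hK1 : 1 ≤ K := le_max_left _ _
  have hXone : 1 ≤ X := le_trans (one_le_pow₀ hK1) hX1
  have hX0 : 0 < X := by linarith
  set Y : ℝ := (X / C) ^ ((1 : ℝ) / D) with hY
  have hY0 : 0 < Y := by positivity
  have hYD : Y ^ D = X / C := by
    rw [hY, ← Real.rpow_natCast, ← Real.rpow_mul (by positivity), one_div,
      inv_mul_cancel₀ hD0.ne', Real.rpow_one]
  have hDne : D ≠ 0 := by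
    intro h
    rw [h] at hD0
    simp at hD0
  have hYV : (V₀ : ℝ) + 2 ≤ Y := by
    by_contra hcon
    push Not at hcon
    have h1 : Y ^ D < ((V₀ : ℝ) + 2) ^ D := pow_lt_pow_left₀ hcon hY0.le hDne
    rw [hYD, div_lt_iff₀ hC] at h1
    linarith
  set V : ℕ := ⌊Y⌋₊ with hVdef
  have hVY : (V : ℝ) ≤ Y := Nat.floor_le hY0.le
  have hVY2 : Y < V + 1 := Nat.lt_floor_add_one Y
  have hVV0 : V₀ ≤ V := by
    have : (V₀ : ℝ) < V + 1 := by linarith
    have h2 : V₀ < V + 1 := by exact_mod_cast this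
    omega
  have hVhalf : Y / 2 ≤ V := by
    have h0 : (0 : ℝ) ≤ V₀ := Nat.cast_nonneg _
    linarith
  have hfinX : (SymO n Ω X).Finite := (hF X hXone).1.subset (fun L hL => ⟨hL.1, hL.2.1⟩)
  refine ⟨hfinX, ?_⟩
  have h1 := hVV V hVV0
  have h2 : C * (V : ℝ) ^ D ≤ X := by
    have h3 : (V : ℝ) ^ D ≤ Y ^ D := pow_le_pow_left₀ (Nat.cast_nonneg _) hVY D
    rw [hYD] at h3
    rw [le_div_iff₀ hC] at h3
    linarith
  have h3 : SymO n Ω (C * (V : ℝ) ^ D) ⊆ SymO n Ω X := by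
    rintro L ⟨ha, ⟨hh, hb⟩, hc'⟩
    exact ⟨ha, ⟨hh, hb.trans h2⟩, hc'⟩
  have h4 : ((SymO n Ω (C * (V : ℝ) ^ D)).ncard : ℝ) ≤ ((SymO n Ω X).ncard : ℝ) := by
    exact_mod_cast Set.ncard_le_ncard h3 hfinX
  refine le_trans ?_ (h1.trans h4)
  -- X ^ ((M-1)/D) ≤ (Y/2)^M
  have h5 : X ^ ((1 : ℝ) / 2 + 4 / (3 * n) - 16 * (Real.log n) ^ 2 / (n : ℝ) ^ 2) ≤
      X ^ (((M : ℝ) - 1) / D) := Real.rpow_le_rpow_of_exponent_le hXone hexp
  refine h5.trans ?_
  have h6 : (Y / 2) ^ M ≤ (V : ℝ) ^ M := pow_le_pow_left₀ (by positivity) hVhalf M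
  refine le_trans ?_ h6
  set Z : ℝ := X ^ ((1 : ℝ) / D) with hZ
  have hZ0 : 0 < Z := by positivity
  have hZK : K ≤ Z := by
    by_contra hcon
    push Not at hcon
    have h7 : Z ^ D < K ^ D := pow_lt_pow_left₀ hcon hZ0.le hDne
    have h8 : Z ^ D = X := by
      rw [hZ, ← Real.rpow_natCast, ← Real.rpow_mul hX0.le, one_div,
        inv_mul_cancel₀ hD0.ne', Real.rpow_one]
    rw [h8] at h7
    linarith
  have h7 : X ^ (((M : ℝ) - 1) / D) = Z ^ (M - 1) := by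
    rw [hZ, ← Real.rpow_natCast, ← Real.rpow_mul hX0.le, Nat.cast_sub hM1]
    congr 1
    push_cast
    field_simp
  rw [h7]
  set C1 : ℝ := max 1 C with hC1
  have hC11 : 1 ≤ C1 := le_max_left _ _
  have hCC1 : C ≤ C1 := le_max_right _ _
  have h8 : Z / C1 ≤ Y := by
    have h9 : Y = Z / C ^ ((1 : ℝ) / D) := by
      rw [hY, hZ, Real.div_rpow hX0.le hC.le]
    rw [h9]
    have h10 : C ^ ((1 : ℝ) / D) ≤ C1 := by
      calc C ^ ((1 : ℝ) / D) ≤ C1 ^ ((1 : ℝ) / D) := by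
            apply Real.rpow_le_rpow hC.le hCC1 (by positivity)
        _ ≤ C1 ^ (1 : ℝ) := by
            apply Real.rpow_le_rpow_of_exponent_le hC11
            rw [div_le_one hD0]
            have : 1 ≤ D := Nat.one_le_iff_ne_zero.2 hDne
            exact_mod_cast this
        _ = C1 := Real.rpow_one _
    have h11 : 0 < C ^ ((1 : ℝ) / D) := by positivity
    gcongr
  have h9 : Z / (2 * C1) ≤ Y / 2 := by
    have : Z / (2 * C1) = Z / C1 / 2 := by
      field_simp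
    rw [this]
    linarith
  have h10 : (Z / (2 * C1)) ^ M ≤ (Y / 2) ^ M := pow_le_pow_left₀ (by positivity) h9 M
  refine le_trans ?_ h10
  rw [div_pow, le_div_iff₀ (by positivity)]
  have h11 : (2 * C1) ^ M ≤ Z := by
    refine le_trans ?_ hZK
    refine le_trans ?_ (le_max_right _ _)
    apply pow_le_pow_right₀ (by linarith)
    have : 1 ≤ D := Nat.one_le_iff_ne_zero.2 hDne
    nlinarith
  calc Z ^ (M - 1) * (2 * C1) ^ M ≤ Z ^ (M - 1) * Z := by gcongr
    _ = Z ^ M := by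
      rw [← pow_succ]
      congr 1
      omega

end Pool.Agent.D0H41.SG
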