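import Pool.Agent.D0H41.SF.Final
import Pool.Agent.D0H41.SG.Asm
import Pool.Agent.D0H41.SG.Verg
import Pool.Agent.D0H41.SG.Expg
import Pool.Agent.D0H87.SG.Famg
import Pool.Agent.D0H30.SG.Sn2
import Pool.Agent.D0H52.SG.Loc
import Pool.Agent.D0H52.SG.Crt
import Pool.Agent.D0H34.SG.Real
import Pool.Agent.D0H12.SG.Emb

/-!
Project SG: the final theorem.
-/

set_option autoImplicit false

namespace Pool.Agent.D0H41.SG

theorem famg : S_FAMG :=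
  Pool.Agent.D0H87.SG.t_FAMG (Pool.Agent.D0H87.SF.GM.t_GM Pool.Agent.D0H87.SF.PAK.t_PAK)
    Pool.Agent.D0H87.SF.CO.t_CO Pool.Agent.D0H87.SF.PR.t_PR

theorem verg : S_VERG :=
  t_VERG Pool.Agent.D0H87.SF.IDX.t_IDX Pool.Agent.D0H15.SF.t_CAS
    (Pool.Agent.D0H52.SF.t_PKF Pool.Agent.D0H87.SF.PAK.t_PAK) Pool.Agent.D0H52.SF.t_ONE
    Pool.Agent.D0H15.SF.t_SMF

theorem theFinal : S_FIN :=
  final (t_EXPG verg) famg Pool.Agent.D0H30.SG.t_SN2 Pool.Agent.D0H52.SG.t_LOC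
    Pool.Agent.D0H34.SG.t_REAL Pool.Agent.D0H12.SG.t_EMB Pool.Agent.D0H52.SG.t_CRT

end Pool.Agent.D0H41.SG
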